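import Pool.Agent.PDA.Main

/-!
# Products of two derangements: all transitive actions of all alternating groups

Let `G` be a group isomorphic to the alternating group `A_n`, `n ≥ 5`, acting transitively on a set
`Ω` with more than one point.  Then every element of `G` is a product of two derangements, that is
of two elements of `G` without fixed points in `Ω`.
-/

set_option autoImplicit false

namespace Pool.Agent.Results.MP_02be15_al.AlternatingGroups

theorem result {n : ℕ} (hn : 5 ≤ n) {G Ω : Type} [Group G]
    (e : G ≃* alternatingGroup (Fin n)) [MulAction G Ω] [Nontrivial Ω]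
    (htrans : ∀ a b : Ω, ∃ g : G, g • a = b) (g : G) :
    ∃ x y : G, (∀ a : Ω, x • a ≠ a) ∧ (∀ a : Ω, y • a ≠ a) ∧ g = x * y := by
  let act : MulAction (alternatingGroup (Fin n)) Ω := MulAction.compHom Ω e.symm.toMonoidHom
  have hsm : ∀ (h : alternatingGroup (Fin n)) (a : Ω), act.toSMul.smul h a = e.symm h • a :=
    fun h a => rfl
  have ht : @MulAction.IsPretransitive (alternatingGroup (Fin n)) Ω act.toSMul := by
    let _ := act
    refine ⟨fun a b => ?_⟩
    obtain ⟨k, hk⟩ := htrans a b
    refine ⟨e k, ?_⟩
    change e.symm (e k) • a = b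
    rw [e.symm_apply_apply]
    exact hk
  obtain ⟨x, y, hx, hy, hxy⟩ := @Pool.Agent.PDA.main n hn Ω act ht _ (e g)
  refine ⟨e.symm x, e.symm y, fun a h => hx a h, fun a h => hy a h, ?_⟩
  rw [← map_mul, hxy, e.symm_apply_apply]

end Pool.Agent.Results.MP_02be15_al.AlternatingGroups
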