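import Pool.Agent.Helper60.Psl.M
import Pool.Agent.SLN.FinN
import Pool.Agent.SLM.MainAll

/-!
# Products of two derangements: all transitive actions of all simple groups `PSL_n(q)`

Let `F` be a finite field with `q` elements and let `n ≥ 2`, with `q ≥ 4` if `n = 2` (these are all
the cases in which `PSL_n(q)` is a nonabelian simple group).  Let `G` be a group isomorphic to `PSL_n(q)` which acts
transitively on a set `Ω` with more than one point.  Then every element of `G` is a product of two
derangements, that is of two elements of `G` without fixed points in `Ω`.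
-/

set_option autoImplicit false

namespace Pool.Agent.Results.MP_02be15_al.LinearGroups

open Pool.Agent.SLN

private theorem nonscalar {n : ℕ} (hn : 3 ≤ n) (F : Type) [Field F] : ∃ g : SLn n F, ¬ Sc g := by
  obtain ⟨m, rfl⟩ : ∃ m, n = m + 3 := ⟨n - 3, by omega⟩
  refine ⟨⟨Matrix.transvection 0 1 1, Matrix.det_transvection_of_ne _ _ (by simp) _⟩, ?_⟩
  rintro ⟨t, ht⟩
  have h1 := congrFun (congrFun ht 0) 1
  simp [Matrix.transvection, Matrix.single] at h1

/-- Every element of the simple group `PSL_n(q)` is a product of two derangements, in every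
transitive action on a set with at least two points. -/
theorem result {n : ℕ} {F G Ω : Type} [Field F] [Finite F]
    (hn : 2 ≤ n) (hq : n = 2 → 4 ≤ Nat.card F) [Group G]
    (e : G ≃* Matrix.ProjectiveSpecialLinearGroup (Fin n) F)
    [MulAction G Ω] [MulAction.IsPretransitive G Ω] [Nontrivial Ω] (g : G) :
    ∃ x y : G, (∀ ω : Ω, x • ω ≠ ω) ∧ (∀ ω : Ω, y • ω ≠ ω) ∧ x * y = g := by
  by_cases h2 : n = 2
  · subst h2
    exact Pool.Agent.Helper60.Psl.fin e
      (fun K hK hm g hg => Pool.Agent.Helper60.Psl.main (hq rfl) K hK hm g hg) g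
  · have hn3 : 3 ≤ n := by omega
    exact finN e (nonscalar hn3 F)
      (fun K hK g hg => Pool.Agent.SLM.mainAll hn3 K hK g hg) g

end Pool.Agent.Results.MP_02be15_al.LinearGroups
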