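import Pool.Agent.SZQ.Fin

/-!
# Products of two derangements: all transitive actions of all Suzuki groups

Let `F` be a field with `2 ^ (2 n + 1)` elements, `n ≥ 1`, and `G` a group isomorphic to the Suzuki
group `Sz(2 ^ (2 n + 1))`, the subgroup of `GL_4(F)` generated by Suzuki's matrices
(`Pool.Agent.Helper8.SUZ.Sz`, with `th x = x ^ (2 ^ (n + 1))`), acting transitively on a set with
more than one point.  Then every element of `G` is a product of two derangements, that is of two
elements of `G` without fixed points.
-/

set_option autoImplicit false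

namespace Pool.Agent.Results.MP_02be15_al.SuzukiGroups

open Pool.Agent.Helper8.SUZ

/-- Every element of the Suzuki group `Sz(q)`, `q = 2 ^ (2 n + 1) ≥ 8`, is a product of two
derangements, in every transitive action on a set with at least two points. -/
theorem result {F : Type} [Field F] [Finite F] {n : ℕ} (hn : 1 ≤ n)
    (hF : Nat.card F = 2 ^ (2 * n + 1)) {G Ω : Type} [Group G]
    (e : G ≃* Sz (fun x : F => x ^ (2 ^ (n + 1)))) [MulAction G Ω]
    [MulAction.IsPretransitive G Ω] [Nontrivial Ω] (g : G) :
    ∃ x y : G, (∀ ω : Ω, x • ω ≠ ω) ∧ (∀ ω : Ω, y • ω ≠ ω) ∧ x * y = g :=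
  Pool.Agent.SZQ.sz_main hn hF e g

end Pool.Agent.Results.MP_02be15_al.SuzukiGroups
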