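import Pool.Agent.Helper87.TwoTrans

/-!
# Products of two derangements in finite 2-transitive groups

Let a finite group `G` act 2-transitively on a finite set `Ω` with at least three points.

* An element of `G` is a product of two derangements (elements of `G` without fixed points in `Ω`)
  if and only if its number of fixed points is not `1`, or it is a product of two elements each of
  which has at least two fixed points.
* If the stabiliser of two points has an orbit with more than `(|Ω| - 1) / 2` points, then every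
  element of `G` is a product of two derangements.
* If more than half of the elements of the stabiliser of a point fix another point, then every
  element of `G` is a product of two derangements.
* All this carries over to every action of `G` on a set which maps equivariantly to `Ω`.
-/

namespace Pool.Agent.Results.MP_02be15_al.TwoTransitive

open Pool.Agent.Helper87.TwoTrans

theorem result {G Ω : Type} [Group G] [Finite G] [MulAction G Ω] [Finite Ω]
    (h2 : ∀ a b c d : Ω, a ≠ b → c ≠ d → ∃ g : G, g • a = c ∧ g • b = d)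
    (hn : 3 ≤ Nat.card Ω) :
    (∀ g : G,
      (∃ x y : G, (∀ a : Ω, x • a ≠ a) ∧ (∀ a : Ω, y • a ≠ a) ∧ x * y = g) ↔
        (Nat.card {a : Ω // g • a = a} ≠ 1 ∨
          ∃ x y : G, 2 ≤ Nat.card {a : Ω // x • a = a} ∧ 2 ≤ Nat.card {a : Ω // y • a = a} ∧
            x * y = g)) ∧
    ((∃ a b c : Ω, a ≠ b ∧
        Nat.card Ω - 1 < 2 * Nat.card {d : Ω // ∃ k : G, k • a = a ∧ k • b = b ∧ k • c = d}) →
      ∀ g : G, ∃ x y : G, (∀ a : Ω, x • a ≠ a) ∧ (∀ a : Ω, y • a ≠ a) ∧ x * y = g) ∧
    ((∃ a : Ω, Nat.card {k : G // k • a = a} <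
        2 * Nat.card {k : G // k • a = a ∧ ∃ b : Ω, b ≠ a ∧ k • b = b}) →
      ∀ g : G, ∃ x y : G, (∀ a : Ω, x • a ≠ a) ∧ (∀ a : Ω, y • a ≠ a) ∧ x * y = g) ∧
    (∀ (Ψ : Type) (_ : MulAction G Ψ) (f : Ψ → Ω), (∀ (g : G) (a : Ψ), f (g • a) = g • f a) →
      ∀ g : G, (∃ x y : G, (∀ a : Ω, x • a ≠ a) ∧ (∀ a : Ω, y • a ≠ a) ∧ x * y = g) →
        ∃ x y : G, (∀ a : Ψ, x • a ≠ a) ∧ (∀ a : Ψ, y • a ≠ a) ∧ x * y = g) := by
  classical
  have : Fintype G := Fintype.ofFinite G
  have : Fintype Ω := Fintype.ofFinite Ω
  have hn' : 3 ≤ Fintype.card Ω := by rwa [Nat.card_eq_fintype_card] at hn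
  have hcard : ∀ g : G, ((Nat.card {a : Ω // g • a = a} : ℕ) : ℤ) = fx Ω g := by
    intro g
    unfold fx
    rw [Nat.card_eq_fintype_card, Fintype.card_subtype]
  -- transitivity
  have h1 : ∀ a c : Ω, ∃ g : G, g • a = c := by
    intro a c
    have hlt : ∀ p : Ω, ∃ q : Ω, p ≠ q := by
      intro p
      by_contra hcon
      push Not at hcon
      have : Fintype.card Ω ≤ 1 := Fintype.card_le_one_iff.2 fun x y => by
        rw [← hcon x, ← hcon y]
      omega
    obtain ⟨b, hb⟩ := hlt a
    obtain ⟨d, hd⟩ := hlt c
    obtain ⟨g, hg, _⟩ := h2 a b c d hb hd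
    exact ⟨g, hg⟩
  have main1 : ∀ g : G,
      (∃ x y : G, (∀ a : Ω, x • a ≠ a) ∧ (∀ a : Ω, y • a ≠ a) ∧ x * y = g) ↔
        (Nat.card {a : Ω // g • a = a} ≠ 1 ∨
          ∃ x y : G, 2 ≤ Nat.card {a : Ω // x • a = a} ∧ 2 ≤ Nat.card {a : Ω // y • a = a} ∧
            x * y = g) := by
    intro g
    have hm := main h1 h2 hn' g
    have hag : ∀ y : G, ag Ω g y = fx Ω (y⁻¹ * g) := by
      intro y
      unfold fx ag
      congr 2
      ext a
      simp only [Finset.mem_filter, Finset.mem_univ, true_and]
      exact (smul_iff_ag g y a).symm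
    constructor
    · rintro ⟨x, y, hx, hy, hxy⟩
      have h3 : ∃ y : G, fx Ω y = 0 ∧ ag Ω g y = 0 := by
        refine ⟨x, fx_eq_zero.2 hx, ?_⟩
        rw [hag, ← hxy, inv_mul_cancel_left]
        exact fx_eq_zero.2 hy
      rcases hm.1 h3 with h4 | ⟨z, hz1, hz2⟩
      · left
        intro h5
        apply h4
        rw [← hcard, h5]
        rfl
      · right
        refine ⟨z, z⁻¹ * g, ?_, ?_, mul_inv_cancel_left z g⟩
        · rw [← hcard] at hz1
          exact_mod_cast hz1
        · rw [hag, ← hcard] at hz2
          exact_mod_cast hz2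
    · intro h
      have h3 : fx Ω g ≠ 1 ∨ ∃ y : G, 2 ≤ fx Ω y ∧ 2 ≤ ag Ω g y := by
        rcases h with h | ⟨x, y, hx, hy, hxy⟩
        · left
          intro h5
          apply h
          rw [← hcard] at h5
          exact_mod_cast h5
        · right
          refine ⟨x, ?_, ?_⟩
          · rw [← hcard]
            exact_mod_cast hx
          · rw [hag, ← hxy, inv_mul_cancel_left, ← hcard]
            exact_mod_cast hy
      obtain ⟨z, hz1, hz2⟩ := hm.2 h3
      refine ⟨z, z⁻¹ * g, fx_eq_zero.1 hz1, ?_, mul_inv_cancel_left z g⟩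
      rw [hag] at hz2
      exact fx_eq_zero.1 hz2
  refine ⟨main1, ?_, ?_, ?_⟩
  · rintro ⟨a, b, c, hab, hO⟩ g
    rw [main1]
    by_cases hg : Nat.card {a : Ω // g • a = a} = 1
    · right
      -- the fixed point
      obtain ⟨hsub, hne⟩ := Nat.card_eq_one_iff_unique.1 hg
      obtain ⟨⟨p, hp⟩⟩ := hne
      have huniq : ∀ q : Ω, g • q = q → q = p := by
        intro q hq
        have := @Subsingleton.elim _ hsub ⟨q, hq⟩ ⟨p, hp⟩
        exact congrArg Subtype.val this
      -- move `a` to `p`
      obtain ⟨m, hm⟩ := h1 a p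
      set O : Finset Ω := Finset.univ.filter fun d => ∃ k : G, k • a = a ∧ k • b = b ∧ k • c = d
        with hOdef
      have hOc : Fintype.card Ω - 1 < 2 * O.card := by
        rw [Nat.card_eq_fintype_card, Nat.card_eq_fintype_card, Fintype.card_subtype] at hO
        exact hO
      have hmem : ∀ d : Ω, d ∈ O ↔ ∃ k : G, k • a = a ∧ k • b = b ∧ k • c = d := by
        intro d; rw [hOdef]; simp
      have hca : c ≠ a := by
        intro hca
        have : O ⊆ {a} := by
          intro d hd
          obtain ⟨k, hk1, hk2, hk3⟩ := (hmem d).1 hd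
          rw [Finset.mem_singleton, ← hk3, hca, hk1]
        have := Finset.card_le_card this
        rw [Finset.card_singleton] at this
        omega
      have hOa : ∀ d ∈ O, d ≠ a := by
        intro d hd hda
        obtain ⟨k, hk1, hk2, hk3⟩ := (hmem d).1 hd
        apply hca
        rw [hda, ← hk1] at hk3
        exact (smul_left_cancel_iff k).1 hk3
      set P : Finset Ω := O.image fun d => m • d with hP
      have hPc : P.card = O.card :=
        Finset.card_image_of_injective _ (MulAction.injective m)
      set Q : Finset Ω := P.image fun d => g • d with hQ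
      have hQc : Q.card = O.card := by
        rw [hQ, Finset.card_image_of_injective _ (MulAction.injective g), hPc]
      have hPp : ∀ d ∈ P, d ≠ p := by
        intro d hd hdp
        obtain ⟨e, he, rfl⟩ := Finset.mem_image.1 hd
        rw [← hm] at hdp
        exact hOa e he ((smul_left_cancel_iff m).1 hdp)
      have hQp : ∀ d ∈ Q, d ≠ p := by
        intro d hd hdp
        obtain ⟨e, he, rfl⟩ := Finset.mem_image.1 hd
        have h3 : g • e = g • p := by rw [hp]; exact hdp
        exact hPp e he ((smul_left_cancel_iff g).1 h3)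
      have hint : (P ∩ Q).Nonempty := by
        rw [← Finset.card_pos]
        have hU : (P ∪ Q).card ≤ Fintype.card Ω - 1 := by
          have : P ∪ Q ⊆ Finset.univ.erase p := by
            intro d hd
            rw [Finset.mem_erase]
            rcases Finset.mem_union.1 hd with h | h
            · exact ⟨hPp d h, Finset.mem_univ d⟩
            · exact ⟨hQp d h, Finset.mem_univ d⟩
          have := Finset.card_le_card this
          rwa [Finset.card_erase_of_mem (Finset.mem_univ p), Finset.card_univ] at this
        have := Finset.card_union_add_card_inter P Q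
        omega
      obtain ⟨e, he⟩ := hint
      obtain ⟨heP, heQ⟩ := Finset.mem_inter.1 he
      obtain ⟨d, hd, hde⟩ := Finset.mem_image.1 heQ
      obtain ⟨e1, he1, rfl⟩ := Finset.mem_image.1 heP
      obtain ⟨d1, hd1, rfl⟩ := Finset.mem_image.1 hd
      obtain ⟨k, hk1, hk2, hk3⟩ := (hmem e1).1 he1
      obtain ⟨l, hl1, hl2, hl3⟩ := (hmem d1).1 hd1
      -- the element `m * (k * l⁻¹) * m⁻¹`
      set y : G := m * (k * l⁻¹) * m⁻¹ with hy
      have hla : l⁻¹ • a = a := by rw [inv_smul_eq_iff, hl1]
      have hlb : l⁻¹ • b = b := by rw [inv_smul_eq_iff, hl2]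
      have hld : l⁻¹ • d1 = c := by rw [inv_smul_eq_iff, hl3]
      have hyp : y • p = p := by
        rw [hy, mul_smul, mul_smul, mul_smul, ← hm, inv_smul_smul, hla, hk1]
      have hyb : y • (m • b) = m • b := by
        rw [hy, mul_smul, mul_smul, mul_smul, inv_smul_smul, hlb, hk2]
      have hyd : y • (m • d1) = g • (m • d1) := by
        rw [hy, mul_smul, mul_smul, mul_smul, inv_smul_smul, hld, hk3, hde]
      have hpb : p ≠ m • b := by
        rw [← hm]
        intro h
        exact hab ((smul_left_cancel_iff m).1 h)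
      have hpd : p ≠ m • d1 := fun h => hPp _ hd h.symm
      refine ⟨y, y⁻¹ * g, ?_, ?_, mul_inv_cancel_left y g⟩
      · have h4 : Nontrivial {a : Ω // y • a = a} :=
          ⟨⟨p, hyp⟩, ⟨m • b, hyb⟩, fun h => hpb (congrArg Subtype.val h)⟩
        exact Finite.one_lt_card
      · have h4 : Nontrivial {a : Ω // (y⁻¹ * g) • a = a} :=
          ⟨⟨p, by rw [smul_iff_ag, hyp, hp]⟩, ⟨m • d1, by rw [smul_iff_ag, hyd]⟩,
            fun h => hpd (congrArg Subtype.val h)⟩
        exact Finite.one_lt_card
    · left; exact hg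
  · rintro ⟨a, hF⟩ g
    rw [main1]
    by_cases hg : Nat.card {a : Ω // g • a = a} = 1
    · right
      obtain ⟨hsub, hne⟩ := Nat.card_eq_one_iff_unique.1 hg
      obtain ⟨⟨p, hp⟩⟩ := hne
      obtain ⟨m, hm⟩ := h1 a p
      have hm' : m⁻¹ • p = a := by rw [inv_smul_eq_iff, hm]
      set K : Finset G := Finset.univ.filter fun k => k • a = a with hK
      set F : Finset G := Finset.univ.filter fun k => k • a = a ∧ ∃ b : Ω, b ≠ a ∧ k • b = b
        with hFd
      have hFc : K.card < 2 * F.card := by
        rw [Nat.card_eq_fintype_card, Nat.card_eq_fintype_card, Fintype.card_subtype,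
          Fintype.card_subtype] at hF
        exact hF
      -- the conjugate of `g` that fixes `a`
      set h : G := m⁻¹ * g * m with hh
      have hha : h • a = a := by rw [hh, mul_smul, mul_smul, hm, hp, hm']
      set A : Finset G := F.image fun k => h * k⁻¹ with hA
      have hAc : A.card = F.card := by
        refine Finset.card_image_of_injective _ fun k l hkl => ?_
        exact inv_injective (mul_left_cancel hkl)
      have hFK : F ⊆ K := by
        intro k hk
        rw [hFd, Finset.mem_filter] at hk
        rw [hK, Finset.mem_filter]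
        exact ⟨Finset.mem_univ k, hk.2.1⟩
      have hAK : A ⊆ K := by
        intro z hz
        obtain ⟨k, hk, rfl⟩ := Finset.mem_image.1 hz
        rw [hFd, Finset.mem_filter] at hk
        rw [hK, Finset.mem_filter]
        refine ⟨Finset.mem_univ _, ?_⟩
        have h5 : k⁻¹ • a = a := by rw [inv_smul_eq_iff, hk.2.1]
        rw [mul_smul, h5, hha]
      have hint : (F ∩ A).Nonempty := by
        rw [← Finset.card_pos]
        have h5 := Finset.card_le_card (Finset.union_subset hFK hAK)
        have h6 := Finset.card_union_add_card_inter F A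
        omega
      obtain ⟨z, hz⟩ := hint
      obtain ⟨hzF, hzA⟩ := Finset.mem_inter.1 hz
      obtain ⟨k, hk, hkz⟩ := Finset.mem_image.1 hzA
      rw [hFd, Finset.mem_filter] at hk hzF
      obtain ⟨_, hza, b, hb, hzb⟩ := hzF
      obtain ⟨_, hka, d, hd, hkd⟩ := hk
      have hzd : z • d = h • d := by
        have h5 : k⁻¹ • d = d := by rw [inv_smul_eq_iff, hkd]
        rw [← hkz, mul_smul, h5]
      -- conjugate back
      set y : G := m * z * m⁻¹ with hy
      have hyp : y • p = p := by
        rw [hy, mul_smul, mul_smul, hm', hza, hm]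
      have hyb : y • (m • b) = m • b := by
        rw [hy, mul_smul, mul_smul, inv_smul_smul, hzb]
      have hyd : y • (m • d) = g • (m • d) := by
        rw [hy, mul_smul, mul_smul, inv_smul_smul, hzd, hh, mul_smul, mul_smul, smul_inv_smul]
      have hpb : p ≠ m • b := by
        rw [← hm]
        intro h
        exact hb ((smul_left_cancel_iff m).1 h).symm
      have hpd : p ≠ m • d := by
        rw [← hm]
        intro h
        exact hd ((smul_left_cancel_iff m).1 h).symm
      refine ⟨y, y⁻¹ * g, ?_, ?_, mul_inv_cancel_left y g⟩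
      · have h4 : Nontrivial {a : Ω // y • a = a} :=
          ⟨⟨p, hyp⟩, ⟨m • b, hyb⟩, fun h => hpb (congrArg Subtype.val h)⟩
        exact Finite.one_lt_card
      · have h4 : Nontrivial {a : Ω // (y⁻¹ * g) • a = a} :=
          ⟨⟨p, by rw [smul_iff_ag, hyp, hp]⟩, ⟨m • d, by rw [smul_iff_ag, hyd]⟩,
            fun h => hpd (congrArg Subtype.val h)⟩
        exact Finite.one_lt_card
    · left; exact hg
  · rintro Ψ _ f hf g ⟨x, y, hx, hy, hxy⟩
    refine ⟨x, y, fun a h => hx (f a) ?_, fun a h => hy (f a) ?_, hxy⟩
    · rw [← hf, h]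
    · rw [← hf, h]

end Pool.Agent.Results.MP_02be15_al.TwoTransitive
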